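import Mathlib
import Pool.Agent.H619.CutInv.Unit

/-!
# A connected bigraph which is edge-transitive under its cut-involution group but not weakly norming

A bigraph with vertex classes `V`, `W` is given by its set of edges `G ⊆ V × W`
(`Pool.Agent.H619.CutInv.Defs`):

* `dens G μ ν f` is `t(G, f)` for the probability spaces `(X, μ)`, `(Y, ν)`, and
  `gnorm G μ ν f = t(G, |f|) ^ (1 / e(G))`;
* `IsNormOn G μ ν`: `gnorm` is a norm on the bounded measurable functions on `X × Y` modulo
  almost everywhere equality; `WeaklyNorming G`: this holds for all probability spaces;
* `IsCutInvolution G φ`: `φ` is an automorphism of `G` preserving the two classes, `φ = φ⁻¹`, and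
  deleting the fixed points of `φ` leaves a disconnected graph; `cutGroup G` is the subgroup
  generated by these `φ`, and `EdgeTransitiveUnder G H` says that `H` is transitive on the edges.

The counterexample is the point-line incidence graph of the Fano plane with every point doubled.
An elation with centre `c`, combined with the exchange of the two copies of `c`, is a
cut-involution: all lines through `c` are fixed, so that the two copies of `c` are isolated vertices
of the graph of the vertices which are moved.  The triangle inequality fails for explicit step
functions with `7 × 6` steps; the density is a sum over the `6 ^ 7` maps from the lines to the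
steps, evaluated in the kernel.
-/

set_option autoImplicit false

open MeasureTheory Pool.Agent.H619.CutInv

theorem Pool.Agent.Results.MP_16ad8c_co.DoubledFano.result :
    ∃ (V W : Type) (_ : Fintype V) (_ : Fintype W) (G : Finset (V × W)),
      G.Nonempty ∧ (graph G).Connected ∧ EdgeTransitiveUnder G (cutGroup G) ∧
      ¬ WeaklyNorming G ∧
      ¬ IsNormOn G (volume : Measure unitInterval) (volume : Measure unitInterval) :=
  ⟨Fin 7 × Fin 2, Fin 7, inferInstance, inferInstance, E,
    Finset.card_pos.1 (by rw [card_E]; norm_num), connected, edge_transitive,
    fun h => not_isNormOn_unit (h unitInterval unitInterval volume volume), not_isNormOn_unit⟩
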