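import Mathlib
import Pool.Agent.H619.CutInv.Two

/-!
# Exchanging cut-involutions

A bigraph which is not weakly norming although it is edge-transitive already under the group
generated by the cut-involutions `φ` for which the set of the vertices not fixed by `φ` is the
disjoint union of two nonempty sets, exchanged by `φ`, without edges between them.  The bigraph
consists of two disjoint copies of the incidence graph of the Fano plane with every point doubled,
and the involutions exchange the two copies, twisted by an automorphism of one copy (the empty set
counts as a vertex-cut of a disconnected graph, as in the problem).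

Definitions: see `Pool.Agent.H619.CutInv.Defs` and `IsExchange`, `exchangeGroup` in
`Pool.Agent.H619.CutInv.Two`.
-/

set_option autoImplicit false

open Pool.Agent.H619.CutInv

theorem Pool.Agent.Results.MP_16ad8c_co.ExchangingInvolutions.result :
    ∃ (V W : Type) (_ : Fintype V) (_ : Fintype W) (G : Finset (V × W)),
      G.Nonempty ∧ EdgeTransitiveUnder G (exchangeGroup G) ∧ EdgeTransitiveUnder G (cutGroup G) ∧
      ¬ WeaklyNorming G :=
  ⟨(Fin 7 × Fin 2) × Bool, Fin 7 × Bool, inferInstance, inferInstance, dbl E,
    ⟨(((0, 0), false), (0, false)), (mem_dbl E (0, 0) false 0 false).2 ⟨rfl, (mem_E _ _).2 rfl⟩⟩,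
    dbl_transitive edge_transitive, dbl_transitive_cut edge_transitive, not_weaklyNorming_dbl⟩
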