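import Pool.Agent.H226R4.Hea

set_option autoImplicit false

namespace Pool.Agent.Results.MP_16ad8c_co.HeawoodGraph

open Pool.Agent.H226R4 Pool.Agent.H226R4.Hea

/-- The incidence graph of the Fano plane (the Heawood graph) is connected and edge-transitive under
its side-preserving automorphisms, but it is not weakly norming. -/
theorem result : (toGraph fano).Connected ∧ AutTransitive fano ∧ ¬ WeaklyNorming fano :=
  ⟨connected_fano, transitive_fano, Hea.not_weaklyNorming⟩

end Pool.Agent.Results.MP_16ad8c_co.HeawoodGraph
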